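import Pool.Agent.Helper44.GN.Defs

/-!
# The averaging step (module AVB)
-/

open Finset MeasureTheory Filter Topology Matrix
open scoped ENNReal ContDiff

namespace Pool.Agent.Helper44.GN

open Pool.Agent.Helper44.GF

theorem avb_Yv_update {n : ℕ} (α a : ℝ) (z : Fin n → ℝ) (x : Fin n) (s : ℝ) :
    Yv α a (Function.update z x s) = Function.update (Yv α a z) x (yy α a s) := by
  funext i
  by_cases h : i = x
  · subst h
    simp [Yv]
  · simp [Yv, Function.update_of_ne h]

theorem avb_wz_update {n : ℕ} (z : Fin n → ℝ) (x : Fin n) (s : ℝ) :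
    wz (Function.update z x s) = (∏ i ∈ univ.erase x, z i ^ 3) * s ^ 3 := by
  unfold wz
  rw [← Finset.prod_erase_mul univ (fun i => Function.update z x s i ^ 3) (mem_univ x)]
  simp only [Function.update_self]
  congr 1
  apply Finset.prod_congr rfl
  intro i hi
  rw [Function.update_of_ne (Finset.ne_of_mem_erase hi)]

theorem avb_Yv_mem {n : ℕ} (hYD : ST_YD) {α a δ : ℝ} (hp : Pm α a δ) {z : Fin n → ℝ}
    (hz : z ∈ Bx n δ) : Yv α a z ∈ Og n := by
  intro i
  have hi : δ ≤ z i := (hz i (Set.mem_univ i)).1
  have := (hYD α a hp.al hp.au hp.a0 (z i) (lt_of_lt_of_le hp.d0 hi)).1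
  show 0 < yy α a (z i)
  linarith

theorem avb_upd_mem {n : ℕ} {δ : ℝ} {z : Fin n → ℝ} (hz : z ∈ Bx n δ) (x : Fin n) {s : ℝ}
    (hs : s ∈ Set.Icc δ 1) : Function.update z x s ∈ Bx n δ := by
  intro i _
  by_cases h : i = x
  · subst h
    simpa using hs
  · rw [Function.update_of_ne h]
    exact hz i (Set.mem_univ i)

theorem avb_Yv_cont {n : ℕ} (hYD : ST_YD) {α a δ : ℝ} (hp : Pm α a δ) :
    ContinuousOn (fun z : Fin n → ℝ => Yv α a z) (Bx n δ) := by
  rw [continuousOn_pi]
  intro i z hz
  have hi : δ ≤ z i := (hz i (Set.mem_univ i)).1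
  have h := (hYD α a hp.al hp.au hp.a0 (z i) (lt_of_lt_of_le hp.d0 hi)).2.2.2.1
  have h2 : ContinuousAt (yy α a) (z i) := h.continuousAt
  have h3 : ContinuousAt (fun w : Fin n → ℝ => w i) z := (continuous_apply i).continuousAt
  exact (ContinuousAt.comp (f := fun w : Fin n → ℝ => w i) (g := yy α a) h2 h3).continuousWithinAt

theorem avb_ss_cont {n : ℕ} (hYD : ST_YD) {α a δ : ℝ} (hp : Pm α a δ) (x : Fin n) :
    ContinuousOn (fun z : Fin n → ℝ => ss α a (z x)) (Bx n δ) := by
  intro z hz
  have hi : δ ≤ z x := (hz x (Set.mem_univ x)).1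
  have h := (hYD α a hp.al hp.au hp.a0 (z x) (lt_of_lt_of_le hp.d0 hi)).2.2.2.2.1
  have h2 : ContinuousAt (ss α a) (z x) := h.continuousAt
  have h3 : ContinuousAt (fun w : Fin n → ℝ => w x) z := (continuous_apply x).continuousAt
  exact (ContinuousAt.comp (f := fun w : Fin n → ℝ => w x) (g := ss α a) h2 h3).continuousWithinAt

theorem avb_upd_cont {n : ℕ} {δ : ℝ} (z : Fin n → ℝ) (x : Fin n) :
    ContinuousOn (fun s : ℝ => Function.update z x s) (Set.Icc δ 1) := by
  have h : Continuous (fun s : ℝ => Function.update z x s) :=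
    (continuous_const (y := z)).update x continuous_id
  exact h.continuousOn

theorem st_AVB (hAV1 : ST_AV1) (hFUB : ST_FUB) (hFCT : ST_FCT) (hDQF : ST_DQF)
    (hDD2 : ST_DD2) (hSMO : ST_SMO) (hYD : ST_YD) : ST_AVB := by
  intro n m V W α a δ ϑ g E hV hW hp hϑ0 hϑ1 hg x hE1 hE2
  obtain ⟨sm1, _, sm3, sm4, _⟩ := hSMO n m V W hV hW
  obtain ⟨_, _, sm3', _, _⟩ := hSMO n m W V hW hV
  have hα0 : 0 < α := by have := hp.al; linarith
  have hrpow : ∀ y ∈ Og n, (qf V y) ^ (-(1 / 2) : ℝ) = Real.exp (-(1 / 2) * Real.log (qf V y)) := by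
    intro y hy
    rw [Real.rpow_def_of_pos (hFCT n m V W hV hW y hy).1]
    congr 1
    ring
  have hYc := avb_Yv_cont (n := n) hYD hp
  have hYm : Set.MapsTo (fun z : Fin n → ℝ => Yv α a z) (Bx n δ) (Og n) :=
    fun z hz => avb_Yv_mem hYD hp hz
  have hgc : ContinuousOn (fun z => g (Yv α a z)) (Bx n δ) :=
    hg.sm.continuousOn.comp hYc hYm
  have hd2c : ContinuousOn (fun z => d2 V W (Yv α a z) x) (Bx n δ) :=
    ContinuousOn.comp (g := fun y => d2 V W y x) (sm4 x) hYc hYm
  have hlvV : ContinuousOn (fun z => lv V (Yv α a z) x) (Bx n δ) :=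
    ContinuousOn.comp (g := fun y => lv V y x) (sm3 x) hYc hYm
  have hlvW : ContinuousOn (fun z => lv W (Yv α a z) x) (Bx n δ) :=
    ContinuousOn.comp (g := fun y => lv W y x) (sm3' x) hYc hYm
  have hEc : ContinuousOn (fun z => E x (Yv α a z)) (Bx n δ) :=
    ContinuousOn.comp (g := fun y => E x y) (hg.ct x) hYc hYm
  have hqc : ContinuousOn (fun z => (qf V (Yv α a z)) ^ (-(1 / 2) : ℝ)) (Bx n δ) := by
    have h1 : ContinuousOn (fun z => Real.exp (-(1 / 2) * Real.log (qf V (Yv α a z))))
        (Bx n δ) := by
      have h2 : ContinuousOn (fun z => Real.log (qf V (Yv α a z))) (Bx n δ) :=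
        ContinuousOn.comp (g := fun y => Real.log (qf V y)) sm1.continuousOn hYc hYm
      exact Real.continuous_exp.comp_continuousOn (continuousOn_const.mul h2)
    exact h1.congr (fun z hz => hrpow _ (hYm hz))
  have hwc : ContinuousOn (fun z : Fin n → ℝ => wz z) (Bx n δ) := by
    have : Continuous (fun z : Fin n → ℝ => wz z) := by
      unfold wz
      exact continuous_finsetProd _ (fun i _ => (continuous_apply i).pow 3)
    exact this.continuousOn
  have hrc : ContinuousOn (fun z => rho V α a z) (Bx n δ) := by
    unfold rho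
    exact hwc.mul hqc
  have hec : ContinuousOn (fun z => Real.exp (g (Yv α a z))) (Bx n δ) :=
    Real.continuous_exp.comp_continuousOn hgc
  unfold IB
  rw [← MeasureTheory.integral_const_mul]
  apply hFUB n δ x _ _ hp.d0 (by have := hp.d1; linarith)
  · exact (hec.mul ((((avb_ss_cont hYD hp x).pow 2).mul (hlvV.add hlvW)).mul hd2c)).mul hrc
  · exact continuousOn_const.mul ((hec.mul hd2c).mul hrc)
  · intro z hz
    set c : ℝ := ∏ i ∈ univ.erase x, z i ^ 3 with hc
    have hc0 : 0 ≤ c := by
      apply Finset.prod_nonneg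
      intro i _
      have hi : δ ≤ z i := (hz i (Set.mem_univ i)).1
      have : 0 ≤ z i := le_trans hp.d0.le hi
      positivity
    have hd1 : δ ≤ 1 := by have := hp.d1; linarith
    -- the functions of one variable
    let y : ℝ → (Fin n → ℝ) := fun s => Yv α a (Function.update z x s)
    let G : ℝ → ℝ := fun s => Real.exp (g (y s)) * d2 V W (y s) x * (qf V (y s)) ^ (-(1 / 2) : ℝ)
    let P : ℝ → ℝ := fun s => lv V (y s) x + lv W (y s) x
    let L : ℝ → ℝ := fun s => E x (y s) + (1 - lv V (y s) x - lv W (y s) x) - 1 / 2 * lv V (y s) x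
    have hum : Set.MapsTo (fun s : ℝ => Function.update z x s) (Set.Icc δ 1) (Bx n δ) :=
      fun s hs => avb_upd_mem hz x hs
    have hyO : ∀ s ∈ Set.Icc δ 1, y s ∈ Og n := fun s hs => hYm (hum hs)
    have huc := avb_upd_cont (δ := δ) z x
    have h1 : ContinuousOn (fun s => lv V (y s) x) (Set.Icc δ 1) :=
      ContinuousOn.comp (g := fun z => lv V (Yv α a z) x) hlvV huc hum
    have h2 : ContinuousOn (fun s => lv W (y s) x) (Set.Icc δ 1) :=
      ContinuousOn.comp (g := fun z => lv W (Yv α a z) x) hlvW huc hum
    have h3 : ContinuousOn (fun s => E x (y s)) (Set.Icc δ 1) :=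
      ContinuousOn.comp (g := fun z => E x (Yv α a z)) hEc huc hum
    have hPc : ContinuousOn P (Set.Icc δ 1) := h1.add h2
    have hLc : ContinuousOn L (Set.Icc δ 1) :=
      (h3.add ((continuousOn_const.sub h1).sub h2)).sub (continuousOn_const.mul h1)
    have hder : ∀ s ∈ Set.Icc δ 1,
        HasDerivAt G (-(4 / α * ss α a s / s * L s * G s)) s := by
      intro s hs
      have hs0 : 0 < s := lt_of_lt_of_le hp.d0 hs.1
      have hy := hyO s hs
      have hq := (hFCT n m V W hV hW (y s) hy).1
      have hyx : y s x = yy α a s := by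
        simp [y, Yv]
      have hYpos : 0 < yy α a s := by
        have := (hYD α a hp.al hp.au hp.a0 s hs0).1
        linarith
      have hupd : ∀ t : ℝ, Function.update (y s) x t = Function.update (Yv α a z) x t := by
        intro t
        simp only [y]
        rw [avb_Yv_update, Function.update_idem]
      have hd1 := hg.der (y s) hy x
      have hd2 := hDD2 n m V W hV hW (y s) hy x
      have hd3 := hDQF n m V hV (y s) hy x
      simp only [hupd] at hd1 hd2 hd3
      rw [hyx] at hd1 hd2 hd3
      have hd4 := (hYD α a hp.al hp.au hp.a0 s hs0).2.2.2.1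
      have e1 := HasDerivAt.comp (h₂ := fun t => g (Function.update (Yv α a z) x t)) s hd1 hd4
      have e2 := HasDerivAt.comp (h₂ := fun t => d2 V W (Function.update (Yv α a z) x t) x) s
        hd2 hd4
      have e3 := HasDerivAt.comp
        (h₂ := fun t => Real.log (qf V (Function.update (Yv α a z) x t))) s hd3 hd4
      have key : HasDerivAt (fun s' => Real.exp (g (Function.update (Yv α a z) x (yy α a s')))
          * d2 V W (Function.update (Yv α a z) x (yy α a s')) x
          * Real.exp (-(1 / 2) * Real.log (qf V (Function.update (Yv α a z) x (yy α a s')))))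
          (-(4 / α * ss α a s / s * L s * G s)) s := by
        have e4 := (e1.exp.mul e2).mul ((e3.const_mul (-(1 / 2) : ℝ)).exp)
        refine e4.congr_deriv ?_
        have hG : G s = Real.exp (g (Function.update (Yv α a z) x (yy α a s)))
          * d2 V W (Function.update (Yv α a z) x (yy α a s)) x
          * Real.exp (-(1 / 2) * Real.log (qf V (Function.update (Yv α a z) x (yy α a s)))) := by
          simp only [G]
          rw [hrpow _ hy]
          simp only [y]
          rw [avb_Yv_update]
        have hyy : y s = Function.update (Yv α a z) x (yy α a s) := by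
          simp only [y]
          rw [avb_Yv_update]
        rw [hG]
        simp only [L, hyy, Function.comp_apply, Pi.mul_apply]
        field_simp
        ring
      refine key.congr_of_eventuallyEq ?_
      have hnb : Set.Ioi (0 : ℝ) ∈ 𝓝 s := Ioi_mem_nhds hs0
      filter_upwards [hnb] with t ht
      have hyt : y t = Function.update (Yv α a z) x (yy α a t) := by
        simp only [y]
        rw [avb_Yv_update]
      have hOt : y t ∈ Og n := by
        rw [hyt]
        intro i
        by_cases h : i = x
        · subst h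
          rw [Function.update_self]
          have := (hYD α a hp.al hp.au hp.a0 t ht).1
          linarith
        · rw [Function.update_of_ne h]
          exact hYm hz i
      simp only [G]
      rw [hrpow _ hOt, hyt]
    have hav := hAV1 α a δ ϑ G L P hp hϑ0 hϑ1 hder
      (by
        intro s hs
        have hf := hFCT n m V W hV hW (y s) (hyO s hs)
        exact mul_nonneg (mul_nonneg (Real.exp_pos _).le (hf.2.2.2.2 x).2.2.2.2.1)
          (Real.rpow_nonneg hf.1.le _))
      (by
        intro s hs
        have hf := (hFCT n m V W hV hW (y s) (hyO s hs)).2.2.2.2 x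
        exact add_nonneg hf.1 hf.2.2.1)
      (by
        intro s hs
        have hf := (hFCT n m V W hV hW (y s) (hyO s hs)).2.2.2.2 x
        have he := hE1 (y s) (hyO s hs)
        have h1 := hf.2.1
        have h2 := hf.2.2.2.1
        simp only [L]
        linarith)
      (by
        intro s hs
        have he := hE2 (y s) (hyO s hs)
        simp only [L, P]
        linarith)
      hLc hPc
    have e1 : (∫ s in δ..1, Real.exp (g (Yv α a (Function.update z x s)))
        * (ss α a (Function.update z x s x) ^ 2
          * (lv V (Yv α a (Function.update z x s)) x + lv W (Yv α a (Function.update z x s)) x)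
          * d2 V W (Yv α a (Function.update z x s)) x) * rho V α a (Function.update z x s))
        = c * ∫ s in δ..1, s ^ 3 * (ss α a s ^ 2 * P s * G s) := by
      rw [← intervalIntegral.integral_const_mul]
      congr 1
      funext s
      simp only [rho, avb_wz_update, Function.update_self, P, G, y, ← hc]
      ring
    have e2 : (∫ s in δ..1, 1 / (2 * ϑ) * (2 * (1 - α) + 5 * a)
        * (Real.exp (g (Yv α a (Function.update z x s)))
          * d2 V W (Yv α a (Function.update z x s)) x * rho V α a (Function.update z x s)))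
        = c * (1 / (2 * ϑ) * (2 * (1 - α) + 5 * a) * ∫ s in δ..1, s ^ 3 * G s) := by
      rw [← intervalIntegral.integral_const_mul, ← intervalIntegral.integral_const_mul]
      congr 1
      funext s
      simp only [rho, avb_wz_update, G, y, ← hc]
      ring
    rw [e1, e2]
    exact mul_le_mul_of_nonneg_left hav hc0

end Pool.Agent.Helper44.GN
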